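import Pool.Agent.helper94.CG.Strategy

/-!
# MP_ba8873_co : comparison of the achievement number with the formula `Q(N)`
-/

namespace CG

open Filter Topology

/-- Explicit lower bound for the achievement number. -/
theorem le_achievement_group {m b j : ℕ} (N : ℕ) (hm : 1 ≤ m) (hj : j ≤ m) (hjb : j ≤ b + 1)
    (hj2 : j * (j - 1) ≤ 2 * m) : j * (Nat.log (4 * (b + 1)) N / 2) ≤ achievement m b N := by
  rcases Nat.eq_zero_or_pos N with rfl | hN
  · simp
  · exact le_achievement (makerForces_group hm hj hjb hj2 (T := Nat.log (4 * (b + 1)) N)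
      (Nat.pow_log_le_self _ hN.ne') (Nat.mul_div_le _ _))

/-- Real form of the lower bound. -/
lemma achievement_ge {m b j N : ℕ} (hm : 1 ≤ m) (hj : j ≤ m) (hjb : j ≤ b + 1)
    (hj2 : j * (j - 1) ≤ 2 * m) (hN : 1 ≤ N) :
    (j : ℝ) / (2 * Real.log (4 * ((b : ℝ) + 1))) * Real.log N - j ≤ achievement m b N := by
  have h1 : ((j * (Nat.log (4 * (b + 1)) N / 2) : ℕ) : ℝ) ≤ achievement m b N := by
    exact_mod_cast le_achievement_group N hm hj hjb hj2
  refine le_trans ?_ h1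
  set D : ℕ := 4 * (b + 1) with hD
  have hDr : (4 : ℝ) * ((b : ℝ) + 1) = (D : ℝ) := by rw [hD]; push_cast; ring
  have hD1 : (1 : ℝ) < D := by
    rw [← hDr]
    have : (0 : ℝ) ≤ b := Nat.cast_nonneg b
    linarith
  have hlogD : 0 < Real.log D := Real.log_pos hD1
  have h2 : Real.log N < ((Nat.log D N : ℝ) + 1) * Real.log D := by
    have h3 : N < D ^ (Nat.log D N + 1) := Nat.lt_pow_succ_log_self (by omega) N
    have h4 : Real.log (N : ℝ) < Real.log ((D : ℝ) ^ (Nat.log D N + 1)) := by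
      apply Real.log_lt_log
      · exact_mod_cast hN
      · exact_mod_cast h3
    rw [Real.log_pow] at h4
    push_cast at h4
    exact h4
  have h5 : ((Nat.log D N : ℝ) - 1) / 2 ≤ ((Nat.log D N / 2 : ℕ) : ℝ) := by
    have h6 : Nat.log D N ≤ 2 * (Nat.log D N / 2) + 1 := by omega
    have h7 : (Nat.log D N : ℝ) ≤ 2 * ((Nat.log D N / 2 : ℕ) : ℝ) + 1 := by exact_mod_cast h6
    linarith
  rw [hDr]
  have h8 : Real.log N / Real.log D < (Nat.log D N : ℝ) + 1 := by
    rw [div_lt_iff₀ hlogD]; exact h2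
  have hj0 : (0 : ℝ) ≤ j := Nat.cast_nonneg j
  have h9 : (j : ℝ) / (2 * Real.log D) * Real.log N = j * ((Real.log N / Real.log D) / 2) := by
    field_simp
  rw [h9]
  push_cast
  have h10 : (Real.log N / Real.log D) / 2 - 1 ≤ ((Nat.log D N / 2 : ℕ) : ℝ) := by linarith
  calc (j : ℝ) * ((Real.log N / Real.log D) / 2) - j = j * ((Real.log N / Real.log D) / 2 - 1) := by
        ring
    _ ≤ j * ((Nat.log D N / 2 : ℕ) : ℝ) := mul_le_mul_of_nonneg_left h10 hj0

/-- Upper bound for `Q(N)`. -/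
lemma Q_le {m b : ℕ} (hb : 1 ≤ b) (hbm : b < m) :
    ∀ᶠ N : ℕ in atTop, Q m b N ≤ 2 / Real.log (((m : ℝ) + b) / m) * Real.log N + 1 := by
  have hm0 : (0 : ℝ) < m := by exact_mod_cast (by omega : 0 < m)
  have hb0 : (0 : ℝ) < b := by exact_mod_cast hb
  have hmb : (b : ℝ) < m := by exact_mod_cast hbm
  have hc1 : 1 < ((m : ℝ) + b) / m := by
    rw [lt_div_iff₀ hm0]; linarith
  set c : ℝ := ((m : ℝ) + b) / m with hc
  have hlogc : 0 < Real.log c := Real.log_pos hc1
  have hcc0 : c ≤ (m : ℝ) / (m - b) := by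
    rw [hc, div_le_div_iff₀ hm0 (by linarith)]
    nlinarith
  have hlogc0 : Real.log c ≤ Real.log ((m : ℝ) / (m - b)) :=
    Real.log_le_log (by linarith) hcc0
  have hκ : 2 * Real.log c / Real.log ((m : ℝ) / (m - b)) ≤ 2 := by
    rw [div_le_iff₀ (lt_of_lt_of_le hlogc hlogc0)]
    linarith
  have htend : Tendsto (fun N : ℕ => Real.log (N : ℝ)) atTop atTop :=
    Real.tendsto_log_atTop.comp tendsto_natCast_atTop_atTop
  filter_upwards [htend.eventually_ge_atTop (Real.exp 1 * Real.log c), eventually_ge_atTop 1]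
    with N hN hN1
  have hNpos : (0 : ℝ) < N := by exact_mod_cast hN1
  have he : 0 < Real.exp 1 := Real.exp_pos 1
  have hL : Real.exp 1 ≤ Real.logb c N := by
    rw [Real.logb, le_div_iff₀ hlogc]
    exact hN
  have hLpos : 0 < Real.logb c N := lt_of_lt_of_le he hL
  have h1 : Real.exp 1 * N / (2 * Real.logb c N) ≤ N := by
    rw [div_le_iff₀ (by linarith)]
    nlinarith
  have h2 : 0 < Real.exp 1 * N / (2 * Real.logb c N) := by positivity
  have h3 : Real.logb c (Real.exp 1 * N / (2 * Real.logb c N)) ≤ Real.logb c N :=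
    Real.logb_le_logb_of_le hc1 h2 h1
  have h4 : Real.logb c N = 1 / Real.log c * Real.log N := by
    rw [Real.logb]; ring
  unfold Q
  rw [← hc]
  have h5 : 2 / Real.log c * Real.log N = 2 * Real.logb c N := by rw [h4]; ring
  rw [h5]
  linarith

/-- If `4 log (4 (b + 1)) < j log ((m + b) / m)` the achievement number exceeds `Q(N)` by an
unbounded amount. -/
theorem tendsto_sub {m b j : ℕ} (hb : 1 ≤ b) (hbm : b < m) (hjb : j ≤ b + 1)
    (hj2 : j * (j - 1) ≤ 2 * m)
    (hlog : 4 * Real.log (4 * ((b : ℝ) + 1)) < j * Real.log (((m : ℝ) + b) / m)) :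
    Tendsto (fun N : ℕ => (achievement m b N : ℝ) - Q m b N) atTop atTop := by
  have hm0 : (0 : ℝ) < m := by exact_mod_cast (by omega : 0 < m)
  have hb0 : (0 : ℝ) < b := by exact_mod_cast hb
  have hc1 : 1 < ((m : ℝ) + b) / m := by
    rw [lt_div_iff₀ hm0]; linarith
  have hlogc : 0 < Real.log (((m : ℝ) + b) / m) := Real.log_pos hc1
  have hlogD : 0 < Real.log (4 * ((b : ℝ) + 1)) := Real.log_pos (by linarith)
  have hcoef : 0 < (j : ℝ) / (2 * Real.log (4 * ((b : ℝ) + 1))) -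
      2 / Real.log (((m : ℝ) + b) / m) := by
    rw [sub_pos, div_lt_div_iff₀ hlogc (by linarith)]
    linarith
  have htend : Tendsto (fun N : ℕ => Real.log (N : ℝ)) atTop atTop :=
    Real.tendsto_log_atTop.comp tendsto_natCast_atTop_atTop
  have h1 : Tendsto (fun N : ℕ => ((j : ℝ) / (2 * Real.log (4 * ((b : ℝ) + 1))) -
      2 / Real.log (((m : ℝ) + b) / m)) * Real.log N + (-(j : ℝ) - 1)) atTop atTop :=
    tendsto_atTop_add_const_right _ _ (htend.const_mul_atTop hcoef)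
  refine tendsto_atTop_mono' _ ?_ h1
  filter_upwards [Q_le hb hbm, eventually_ge_atTop 1] with N hQ hN
  have hA := achievement_ge (m := m) (b := b) (j := j) (N := N) (by omega) (by omega) hjb hj2 hN
  linarith

/-- If `4 C log (4 (b + 1)) < j log ((m + b) / m)` the achievement number exceeds `C Q(N)`. -/
theorem eventually_ratio {m b j : ℕ} {C : ℝ} (hC : 0 < C) (hb : 1 ≤ b) (hbm : b < m)
    (hjb : j ≤ b + 1) (hj2 : j * (j - 1) ≤ 2 * m)
    (hlog : 4 * C * Real.log (4 * ((b : ℝ) + 1)) < j * Real.log (((m : ℝ) + b) / m)) :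
    ∀ᶠ N : ℕ in atTop, C * Q m b N ≤ achievement m b N := by
  have hm0 : (0 : ℝ) < m := by exact_mod_cast (by omega : 0 < m)
  have hb0 : (0 : ℝ) < b := by exact_mod_cast hb
  have hc1 : 1 < ((m : ℝ) + b) / m := by
    rw [lt_div_iff₀ hm0]; linarith
  have hlogc : 0 < Real.log (((m : ℝ) + b) / m) := Real.log_pos hc1
  have hlogD : 0 < Real.log (4 * ((b : ℝ) + 1)) := Real.log_pos (by linarith)
  have hcoef : 0 < (j : ℝ) / (2 * Real.log (4 * ((b : ℝ) + 1))) -
      C * (2 / Real.log (((m : ℝ) + b) / m)) := by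
    have h : C * (2 / Real.log (((m : ℝ) + b) / m)) = (C * 2) / Real.log (((m : ℝ) + b) / m) := by
      ring
    rw [sub_pos, h, div_lt_div_iff₀ hlogc (by linarith)]
    linarith
  have htend : Tendsto (fun N : ℕ => Real.log (N : ℝ)) atTop atTop :=
    Real.tendsto_log_atTop.comp tendsto_natCast_atTop_atTop
  have h1 : Tendsto (fun N : ℕ => ((j : ℝ) / (2 * Real.log (4 * ((b : ℝ) + 1))) -
      C * (2 / Real.log (((m : ℝ) + b) / m))) * Real.log N) atTop atTop :=
    htend.const_mul_atTop hcoef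
  filter_upwards [Q_le hb hbm, eventually_ge_atTop 1, h1.eventually_ge_atTop (j + C)]
    with N hQ hN hlarge
  have hA := achievement_ge (m := m) (b := b) (j := j) (N := N) (by omega) (by omega) hjb hj2 hN
  have h2 : C * Q m b N ≤ C * (2 / Real.log (((m : ℝ) + b) / m) * Real.log N + 1) :=
    mul_le_mul_of_nonneg_left hQ hC.le
  refine h2.trans (le_trans ?_ hA)
  have h3 : C * (2 / Real.log (((m : ℝ) + b) / m) * Real.log N + 1) =
      C * (2 / Real.log (((m : ℝ) + b) / m)) * Real.log N + C := by ring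
  rw [h3]
  linarith

/-- The formula fails by an arbitrarily large factor. -/
theorem exists_ratio {C : ℝ} (hC : 0 < C) : ∃ m b : ℕ, 1 ≤ b ∧ b < m ∧
    ∀ᶠ N : ℕ in atTop, C * Q m b N ≤ achievement m b N := by
  have hl : 0 < Real.log (3 / 2) := Real.log_pos (by norm_num)
  have hδ : 0 < Real.log (3 / 2) / (32 * C) := by positivity
  have h1 := Real.isLittleO_log_id_atTop.def hδ
  have h2 : Tendsto (fun j : ℕ => 2 * (j : ℝ)) atTop atTop :=
    (tendsto_natCast_atTop_atTop).const_mul_atTop (by norm_num)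
  obtain ⟨j, hj, hj2⟩ := ((h2.eventually h1).and (eventually_ge_atTop 2)).exists
  have hjr : (2 : ℝ) ≤ j := by exact_mod_cast hj2
  have hj4 : 4 ≤ j ^ 2 := by nlinarith
  have hj4r : (4 : ℝ) ≤ (j : ℝ) ^ 2 := by exact_mod_cast hj4
  obtain ⟨b, hb⟩ : ∃ b : ℕ, j ^ 2 = b + 1 := ⟨j ^ 2 - 1, by omega⟩
  have hbr : (j : ℝ) ^ 2 = (b : ℝ) + 1 := by exact_mod_cast hb
  refine ⟨j ^ 2, b, by omega, by omega, ?_⟩
  apply eventually_ratio (j := j) hC (by omega) (by omega)
  · rw [← hb]; nlinarith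
  · have : j * (j - 1) ≤ j * j := Nat.mul_le_mul_left _ (Nat.sub_le _ _)
    nlinarith
  · have hlog2j : Real.log (2 * (j : ℝ)) ≤ Real.log (3 / 2) / (32 * C) * (2 * j) := by
      have h3 := hj
      simp only [id_eq, Real.norm_eq_abs] at h3
      rw [abs_of_nonneg (Real.log_nonneg (by linarith)), abs_of_nonneg (by linarith)] at h3
      exact h3
    have h5 : Real.log (4 * ((b : ℝ) + 1)) = 2 * Real.log (2 * (j : ℝ)) := by
      rw [← hbr, show (4 : ℝ) * (j : ℝ) ^ 2 = (2 * (j : ℝ)) ^ 2 by ring, Real.log_pow]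
      norm_num
    have h6 : Real.log (3 / 2) ≤ Real.log ((((j ^ 2 : ℕ) : ℝ) + b) / ((j ^ 2 : ℕ) : ℝ)) := by
      apply Real.log_le_log (by norm_num)
      push_cast
      rw [le_div_iff₀ (by positivity)]
      nlinarith
    rw [h5]
    have h7 : 4 * C * (2 * Real.log (2 * (j : ℝ))) ≤ Real.log (3 / 2) / 2 * j := by
      calc 4 * C * (2 * Real.log (2 * (j : ℝ)))
          ≤ 4 * C * (2 * (Real.log (3 / 2) / (32 * C) * (2 * j))) := by
            apply mul_le_mul_of_nonneg_left _ (by positivity)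
            linarith
        _ = Real.log (3 / 2) / 2 * j := by field_simp; ring
    have h8 : Real.log (3 / 2) / 2 * j < j * Real.log (3 / 2) := by nlinarith
    have h9 : (j : ℝ) * Real.log (3 / 2) ≤
        j * Real.log ((((j ^ 2 : ℕ) : ℝ) + b) / ((j ^ 2 : ℕ) : ℝ)) :=
      mul_le_mul_of_nonneg_left h6 (by linarith)
    linarith

/-- Numerical check for `(m, b) = (4096, 4095)`, `j = 91`. -/
lemma numeric : 4 * (3 / 2) * Real.log (4 * (((4095 : ℕ) : ℝ) + 1)) <
    ((91 : ℕ) : ℝ) * Real.log ((((4096 : ℕ) : ℝ) + ((4095 : ℕ) : ℝ)) / ((4096 : ℕ) : ℝ)) := by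
  have h1 : Real.log (4 * (((4095 : ℕ) : ℝ) + 1)) = 14 * Real.log 2 := by
    rw [show (4 : ℝ) * (((4095 : ℕ) : ℝ) + 1) = 2 ^ 14 by norm_num, Real.log_pow]
    norm_num
  have h2 : Real.log (19 / 10) ≤
      Real.log ((((4096 : ℕ) : ℝ) + ((4095 : ℕ) : ℝ)) / ((4096 : ℕ) : ℝ)) :=
    Real.log_le_log (by norm_num) (by norm_num)
  have h3 : 12 * Real.log 2 < 13 * Real.log (19 / 10) := by
    have h4 : Real.log ((2 : ℝ) ^ 12) < Real.log ((19 / 10 : ℝ) ^ 13) :=
      Real.log_lt_log (by norm_num) (by norm_num)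
    rw [Real.log_pow, Real.log_pow] at h4
    exact_mod_cast h4
  rw [h1]
  have h5 : (0 : ℝ) < Real.log (19 / 10) := Real.log_pos (by norm_num)
  push_cast
  push_cast at h2
  linarith

/-- The assertion of Q1 is false. -/
theorem not_formula : ¬ ∀ m b : ℕ, 1 ≤ b → b < m → ∃ ε : ℕ → ℝ, Tendsto ε atTop (𝓝 0) ∧
    ∀ᶠ N : ℕ in atTop, (achievement m b N : ℤ) = ⌊Q m b N + ε N⌋ := by
  intro h
  obtain ⟨ε, hε, hN⟩ := h 4096 4095 (by norm_num) (by norm_num)
  have h1 : 4 * Real.log (4 * (((4095 : ℕ) : ℝ) + 1)) <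
      ((91 : ℕ) : ℝ) * Real.log ((((4096 : ℕ) : ℝ) + ((4095 : ℕ) : ℝ)) / ((4096 : ℕ) : ℝ)) := by
    have h2 : 0 < Real.log (4 * (((4095 : ℕ) : ℝ) + 1)) := Real.log_pos (by norm_num)
    exact lt_of_le_of_lt (mul_le_mul_of_nonneg_right (by norm_num) h2.le) numeric
  have h3 := tendsto_sub (m := 4096) (b := 4095) (j := 91) (by norm_num) (by norm_num)
    (by norm_num) (by norm_num) h1
  obtain ⟨N, h4, h5, h6⟩ := (hN.and ((h3.eventually_ge_atTop 2).and
    (hε.eventually_lt_const (show (0 : ℝ) < 1 by norm_num)))).exists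
  have h7 : ((achievement 4096 4095 N : ℤ) : ℝ) ≤ Q 4096 4095 N + ε N := by
    rw [h4]; exact Int.floor_le _
  push_cast at h7
  linarith

end CG
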