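import Mathlib

/-!
# MP_ba8873_co : the biased clique game, definitions

Positions are pairs `(M, B)`: the edges of `K_N` claimed so far by Maker and by Breaker.
-/

namespace CG

/-- The unclaimed edges of `K_N` (vertex set `Fin N`) in the position `(M, B)`. -/
def free (N : ℕ) (M B : Finset (Sym2 (Fin N))) : Finset (Sym2 (Fin N)) :=
  (⊤ : SimpleGraph (Fin N)).edgeFinset \ (M ∪ B)

/-- `M` contains all edges of some complete subgraph on `q` vertices. -/
def HasClique (N q : ℕ) (M : Finset (Sym2 (Fin N))) : Prop :=
  ∃ S : Finset (Fin N), S.card = q ∧ ∀ u ∈ S, ∀ v ∈ S, u ≠ v → s(u, v) ∈ M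

/-- `MakerForces m b N q M B`: in the `(m:b)` clique game on `K_N`, from the position `(M, B)` with
Maker to move, Maker has a strategy such that at the end (all edges claimed) he owns all edges of a
complete subgraph on `q` vertices, whatever Breaker does. Backward induction: either all edges are
claimed and Maker owns a `K_q`, or Maker has a legal move `X` (exactly `m` unclaimed edges, or all
of them if fewer remain) such that for each legal reply `Y` of Breaker (exactly `b` unclaimed edges,
or all of them if fewer remain) Maker still forces a `K_q` from the new position. -/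
inductive MakerForces (m b N q : ℕ) : Finset (Sym2 (Fin N)) → Finset (Sym2 (Fin N)) → Prop
  | finished (M B : Finset (Sym2 (Fin N))) : free N M B = ∅ → HasClique N q M →
      MakerForces m b N q M B
  | move (M B X : Finset (Sym2 (Fin N))) : free N M B ≠ ∅ → X ⊆ free N M B →
      X.card = min m (free N M B).card →
      (∀ Y : Finset (Sym2 (Fin N)), Y ⊆ free N (M ∪ X) B →
        Y.card = min b (free N (M ∪ X) B).card → MakerForces m b N q (M ∪ X) (B ∪ Y)) →
      MakerForces m b N q M B

/-- The clique achievement number `A(K_N; clique; m:b)`: the largest `q` such that Maker, moving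
first on the empty board, can build `K_q` against every play of Breaker. -/
noncomputable def achievement (m b N : ℕ) : ℕ := sSup {q : ℕ | MakerForces m b N q ∅ ∅}

/-- The quantity `Q(N) = 2 log_c (e N / (2 log_c N)) - 1 + 2 log c / log c₀` with `c = (m + b) / m`
and `c₀ = m / (m - b)`. -/
noncomputable def Q (m b N : ℕ) : ℝ :=
  2 * Real.logb (((m : ℝ) + b) / m)
      (Real.exp 1 * N / (2 * Real.logb (((m : ℝ) + b) / m) N)) - 1
    + 2 * Real.log (((m : ℝ) + b) / m) / Real.log ((m : ℝ) / (m - b))

/-! ### Basic facts -/

lemma HasClique.mono {N q : ℕ} {M M' : Finset (Sym2 (Fin N))} (h : HasClique N q M)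
    (hM : M ⊆ M') : HasClique N q M' := by
  obtain ⟨S, h1, h2⟩ := h
  exact ⟨S, h1, fun u hu v hv huv => hM (h2 u hu v hv huv)⟩

lemma mem_free {N : ℕ} {M B : Finset (Sym2 (Fin N))} {e : Sym2 (Fin N)} :
    e ∈ free N M B ↔ ¬ e.IsDiag ∧ e ∉ M ∧ e ∉ B := by
  unfold free
  rw [Finset.mem_sdiff, Finset.mem_union, SimpleGraph.mem_edgeFinset, SimpleGraph.edgeSet_top]
  simp only [Sym2.mem_diagSet, Set.mem_compl_iff, not_or]

lemma free_union_left_lt {N : ℕ} {M B X Y : Finset (Sym2 (Fin N))} (hX : X ⊆ free N M B)
    (hne : X.Nonempty) : (free N (M ∪ X) (B ∪ Y)).card < (free N M B).card := by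
  apply Finset.card_lt_card
  rw [Finset.ssubset_iff_of_subset]
  · obtain ⟨e, he⟩ := hne
    exact ⟨e, hX he, fun h => (mem_free.mp h).2.1 (Finset.mem_union_right _ he)⟩
  · intro e he
    rw [mem_free] at he ⊢
    refine ⟨he.1, fun h => he.2.1 (Finset.mem_union_left _ h), fun h => he.2.2 (Finset.mem_union_left _ h)⟩

/-- Once Maker owns a `K_q` he forces it. -/
lemma forces_of_hasClique {m b N q : ℕ} (hm : 1 ≤ m) :
    ∀ (n : ℕ) (M B : Finset (Sym2 (Fin N))), (free N M B).card ≤ n → HasClique N q M →
      MakerForces m b N q M B := by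
  intro n
  induction n with
  | zero =>
    intro M B hn h
    exact MakerForces.finished M B (Finset.card_eq_zero.mp (Nat.le_zero.mp hn)) h
  | succ n ih =>
    intro M B hn h
    by_cases hf : free N M B = ∅
    · exact MakerForces.finished M B hf h
    · obtain ⟨X, hX, hXc⟩ := Finset.exists_subset_card_eq
        (s := free N M B) (n := min m (free N M B).card) (min_le_right _ _)
      have hpos : 0 < (free N M B).card := Finset.card_pos.mpr (Finset.nonempty_iff_ne_empty.mpr hf)
      have hne : X.Nonempty := by
        rw [← Finset.card_pos, hXc]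
        exact lt_min (by omega) hpos
      refine MakerForces.move M B X hf hX hXc fun Y _ _ => ?_
      apply ih
      · have := free_union_left_lt (Y := Y) hX hne
        omega
      · exact h.mono Finset.subset_union_left

/-- The achieved clique sizes are bounded by the number of vertices. -/
lemma MakerForces.le_card {m b N q : ℕ} {M B : Finset (Sym2 (Fin N))}
    (h : MakerForces m b N q M B) : q ≤ N := by
  induction h with
  | finished M B _ h =>
    obtain ⟨S, h1, -⟩ := h
    rw [← h1]
    simpa using S.card_le_univ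
  | move M B X _ _ _ _ ih =>
    obtain ⟨Y, hY, hYc⟩ := Finset.exists_subset_card_eq
      (s := free N (M ∪ X) B) (n := min b (free N (M ∪ X) B).card) (min_le_right _ _)
    exact ih Y hY hYc

lemma le_achievement {m b N q : ℕ} (h : MakerForces m b N q ∅ ∅) : q ≤ achievement m b N :=
  le_csSup ⟨N, fun _ hq => MakerForces.le_card hq⟩ h

/-! ### Forcing a property of the position -/

/-- Maker can force to reach a position with property `P`. -/
inductive Force (m b N : ℕ) (P : Finset (Sym2 (Fin N)) → Finset (Sym2 (Fin N)) → Prop) :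
    Finset (Sym2 (Fin N)) → Finset (Sym2 (Fin N)) → Prop
  | here (M B : Finset (Sym2 (Fin N))) : P M B → Force m b N P M B
  | step (M B X : Finset (Sym2 (Fin N))) : X ⊆ free N M B → X.card = min m (free N M B).card →
      (∀ Y : Finset (Sym2 (Fin N)), Y ⊆ free N (M ∪ X) B →
        Y.card = min b (free N (M ∪ X) B).card → Force m b N P (M ∪ X) (B ∪ Y)) →
      Force m b N P M B

lemma Force.trans {m b N : ℕ} {P P' : Finset (Sym2 (Fin N)) → Finset (Sym2 (Fin N)) → Prop}
    {M B : Finset (Sym2 (Fin N))} (h : Force m b N P M B)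
    (h' : ∀ M' B', P M' B' → Force m b N P' M' B') : Force m b N P' M B := by
  induction h with
  | here M B h => exact h' M B h
  | step M B X hX hXc _ ih => exact Force.step M B X hX hXc ih

lemma Force.mono {m b N : ℕ} {P P' : Finset (Sym2 (Fin N)) → Finset (Sym2 (Fin N)) → Prop}
    {M B : Finset (Sym2 (Fin N))} (h : Force m b N P M B)
    (h' : ∀ M' B', P M' B' → P' M' B') : Force m b N P' M B :=
  h.trans fun M' B' hP => Force.here M' B' (h' M' B' hP)

lemma Force.makerForces {m b N q : ℕ} (hm : 1 ≤ m) {M B : Finset (Sym2 (Fin N))}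
    (h : Force m b N (fun M _ => HasClique N q M) M B) : MakerForces m b N q M B := by
  induction h with
  | here M B h => exact forces_of_hasClique hm _ M B le_rfl h
  | step M B X hX hXc _ ih =>
    by_cases hf : free N M B = ∅
    · have hX0 : X = ∅ := Finset.subset_empty.mp (hf ▸ hX)
      subst hX0
      have hfe : free N (M ∪ ∅) B = ∅ := by rw [Finset.union_empty]; exact hf
      have := ih ∅ (Finset.empty_subset _) (by rw [hfe]; simp)
      simpa using this
    · exact MakerForces.move M B X hf hX hXc ih

/-- One round in which Maker claims (at least) a given set `Z` of at most `m` edges, none of them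
claimed by Breaker. -/
lemma Force.round {m b N : ℕ} {P : Finset (Sym2 (Fin N)) → Finset (Sym2 (Fin N)) → Prop}
    {M B : Finset (Sym2 (Fin N))} (Z : Finset (Sym2 (Fin N))) (hZ : Z.card ≤ m)
    (hZd : ∀ e ∈ Z, ¬ e.IsDiag) (hZB : ∀ e ∈ Z, e ∉ B)
    (h : ∀ M' Y : Finset (Sym2 (Fin N)), M ⊆ M' → Z ⊆ M' → Y.card ≤ b →
      Force m b N P M' (B ∪ Y)) : Force m b N P M B := by
  classical
  have h1 : Z \ M ⊆ free N M B := by
    intro e he
    rw [Finset.mem_sdiff] at he
    exact mem_free.mpr ⟨hZd e he.1, he.2, hZB e he.1⟩
  have h2 : (Z \ M).card ≤ min m (free N M B).card :=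
    le_min ((Finset.card_le_card Finset.sdiff_subset).trans hZ) (Finset.card_le_card h1)
  obtain ⟨X, hX1, hX2, hX3⟩ := Finset.exists_subsuperset_card_eq h1 h2 (min_le_right _ _)
  refine Force.step M B X hX2 hX3 fun Y _ hYc => ?_
  refine h (M ∪ X) Y Finset.subset_union_left ?_ (hYc ▸ min_le_left _ _)
  intro e he
  by_cases hM : e ∈ M
  · exact Finset.mem_union_left _ hM
  · exact Finset.mem_union_right _ (hX1 (Finset.mem_sdiff.mpr ⟨he, hM⟩))

end CG
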