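import Pool.Agent.helper94.CG.Strategy

/-!
# MP_ba8873_co : the sharper group strategy

Groups of size `m` are built in boundedly many moves, and the common neighbourhood is processed in
the order of increasing Breaker degree.
-/

namespace CG

open Finset

variable {N : ℕ}

/-- Twice the number of edges of `B` inside `U`. -/
def degSum (B : Finset (Sym2 (Fin N))) (U : Finset (Fin N)) : ℕ := ∑ v ∈ U, (nbr B U v).card

lemma degSum_le (B : Finset (Sym2 (Fin N))) (U : Finset (Fin N)) : degSum B U ≤ 2 * B.card :=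
  sum_nbr_le B U

lemma nbr_subset_union {B B' : Finset (Sym2 (Fin N))} {U U' : Finset (Fin N)} (hU : U ⊆ U')
    (v : Fin N) : nbr B' U v ⊆ nbr B U' v ∪ nbr (B' \ B) U v := by
  classical
  intro u hu
  obtain ⟨h1, h2, h3⟩ := mem_filter.mp hu
  by_cases hB : s(u, v) ∈ B
  · exact mem_union_left _ (mem_filter.mpr ⟨hU h1, h2, hB⟩)
  · exact mem_union_right _ (mem_filter.mpr ⟨h1, h2, mem_sdiff.mpr ⟨h3, hB⟩⟩)

lemma degSum_le_add {B B' : Finset (Sym2 (Fin N))} {U U' : Finset (Fin N)} (hU : U ⊆ U') :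
    degSum B' U ≤ ∑ v ∈ U, (nbr B U' v).card + 2 * (B' \ B).card := by
  classical
  calc degSum B' U ≤ ∑ v ∈ U, ((nbr B U' v).card + (nbr (B' \ B) U v).card) :=
        sum_le_sum fun v _ => (card_le_card (nbr_subset_union hU v)).trans (card_union_le _ _)
    _ = ∑ v ∈ U, (nbr B U' v).card + degSum (B' \ B) U := by
        rw [sum_add_distrib]; rfl
    _ ≤ _ := Nat.add_le_add_left (degSum_le _ _) _

lemma card_low_of_degSum {B : Finset (Sym2 (Fin N))} {U : Finset (Fin N)} {Δ : ℕ}
    (h : 2 * degSum B U < U.card * (Δ + 1)) : U.card < 2 * (low B U Δ).card := by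
  classical
  have h1 : (U.filter fun v => ¬ (nbr B U v).card ≤ Δ).card * (Δ + 1) ≤ degSum B U := by
    rw [← smul_eq_mul]
    calc (U.filter fun v => ¬ (nbr B U v).card ≤ Δ).card • (Δ + 1)
        ≤ ∑ v ∈ U.filter fun v => ¬ (nbr B U v).card ≤ Δ, (nbr B U v).card := by
          apply card_nsmul_le_sum
          intro v hv
          have := (mem_filter.mp hv).2
          omega
      _ ≤ _ := sum_le_sum_of_subset (filter_subset _ _)
  have h2 := card_filter_add_card_filter_not (s := U) (fun v => (nbr B U v).card ≤ Δ)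
  have h3 : (low B U Δ).card = (U.filter fun v => (nbr B U v).card ≤ Δ).card := rfl
  by_contra hcon
  push Not at hcon
  have h4 : U.card ≤ 2 * (U.filter fun v => ¬ (nbr B U v).card ≤ Δ).card := by omega
  nlinarith

/-- Processing in the order of increasing `d`. -/
lemma force_sorted {m b : ℕ} {C : Finset (Fin N)} (hC : C.card ≤ m) (d : Fin N → ℕ) :
    ∀ (t : ℕ) (M B : Finset (Sym2 (Fin N))) (R : Finset (Fin N)), Disjoint C R →
      R.card = (1 + b) * t → (∀ v ∈ R, ∀ c ∈ C, s(v, c) ∉ B) →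
      Force m b N (fun M' B' => M ⊆ M' ∧ B ⊆ B' ∧ B'.card ≤ B.card + t * b ∧
        ∃ G : Finset (Fin N), G ⊆ R ∧ G.card = t ∧ (∀ v ∈ G, ∀ c ∈ C, s(v, c) ∈ M') ∧
          (1 + b) * ∑ v ∈ G, d v ≤ ∑ v ∈ R, d v) M B := by
  classical
  intro t
  induction t with
  | zero =>
    intro M B R _ _ _
    exact Force.here M B ⟨Subset.rfl, Subset.rfl, by simp, ∅, empty_subset _, rfl, by simp,
      by simp⟩
  | succ t ih =>
    intro M B R hCR hR hns
    have hRne : R.Nonempty := by
      rw [← card_pos, hR]; positivity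
    obtain ⟨v, hvR, hvmin⟩ := exists_min_image R d hRne
    have hvC : v ∉ C := fun h => disjoint_left.mp hCR h hvR
    refine Force.round (C.image fun c => s(v, c)) (card_image_le.trans hC) ?_ ?_ ?_
    · intro e he
      obtain ⟨c, hc, rfl⟩ := mem_image.mp he
      rw [Sym2.mk_isDiag_iff]
      exact fun h => hvC (h ▸ hc)
    · intro e he heB
      obtain ⟨c, hc, rfl⟩ := mem_image.mp he
      exact hns v hvR c hc heB
    · intro M' Y hMM' hZ hY
      have hsp : (spoiled C R Y).card ≤ b := (card_spoiled_le hCR Y).trans hY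
      have h1 : (1 + b) * t ≤ ((R.erase v) \ spoiled C R Y).card := by
        have h2 := le_card_sdiff (spoiled C R Y) (R.erase v)
        rw [card_erase_of_mem hvR, hR] at h2
        have h3 : (1 + b) * (t + 1) = (1 + b) * t + 1 + b := by ring
        omega
      obtain ⟨R', hR'1, hR'2⟩ := exists_subset_card_eq h1
      have hR'R : R' ⊆ R := hR'1.trans (sdiff_subset.trans (erase_subset _ _))
      have hvR' : v ∉ R' := fun h => notMem_erase v R (mem_sdiff.mp (hR'1 h)).1
      have key := ih M' (B ∪ Y) R' (disjoint_of_subset_right hR'R hCR) hR'2 ?_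
      · refine key.mono fun M'' B'' h => ?_
        obtain ⟨h3, h3', h4, G, h5, h6, h7, h8⟩ := h
        have hvG : v ∉ G := fun h => hvR' (h5 h)
        refine ⟨hMM'.trans h3, subset_union_left.trans h3', ?_, insert v G,
          insert_subset hvR (h5.trans hR'R), ?_, ?_, ?_⟩
        · have := card_union_le B Y
          have h9 : (t + 1) * b = t * b + b := by ring
          rw [h9]
          omega
        · rw [card_insert_of_notMem hvG, h6]
        · intro w hw c hc
          rcases mem_insert.mp hw with hw' | hw'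
          · rw [hw']; exact h3 (hZ (mem_image.mpr ⟨c, hc, rfl⟩))
          · exact h7 w hw' c hc
        · rw [sum_insert hvG]
          have h9 : (R \ R').card = 1 + b := by
            rw [card_sdiff_of_subset hR'R, hR, hR'2]
            have : (1 + b) * (t + 1) = (1 + b) * t + (1 + b) := by ring
            omega
          have h10 : (1 + b) * d v ≤ ∑ w ∈ R \ R', d w := by
            rw [← h9, ← smul_eq_mul]
            exact card_nsmul_le_sum _ _ _ fun w hw => hvmin w (sdiff_subset hw)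
          have h11 : ∑ w ∈ R \ R', d w + ∑ w ∈ R', d w = ∑ w ∈ R, d w := sum_sdiff hR'R
          calc (1 + b) * (d v + ∑ x ∈ G, d x) = (1 + b) * d v + (1 + b) * ∑ x ∈ G, d x := by ring
            _ ≤ ∑ w ∈ R \ R', d w + ∑ w ∈ R', d w := add_le_add h10 h8
            _ = _ := h11
      · intro w hw c hc hmem
        rcases mem_union.mp hmem with h | h
        · exact hns w (hR'R hw) c hc h
        · exact (mem_sdiff.mp (hR'1 hw)).2 (mem_filter.mpr ⟨hR'R hw, c, hc, h⟩)

/-- Building a clique of fixed size inside a large set free of Breaker's edges. -/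
lemma force_build {m b : ℕ} (hm : 1 ≤ m) : ∀ j : ℕ, ∃ w r : ℕ, ∀ (N : ℕ)
    (M B : Finset (Sym2 (Fin N))) (W : Finset (Fin N)), w ≤ W.card →
      (∀ u ∈ W, ∀ v ∈ W, u ≠ v → s(u, v) ∉ B) →
      Force m b N (fun M' B' => M ⊆ M' ∧ B ⊆ B' ∧ B'.card ≤ B.card + b * r ∧
        ∃ C : Finset (Fin N), C ⊆ W ∧ C.card = j ∧ ∀ u ∈ C, ∀ v ∈ C, u ≠ v → s(u, v) ∈ M')
        M B := by
  classical
  intro j
  induction j with
  | zero =>
    refine ⟨0, 0, fun N M B W _ _ => Force.here _ _ ⟨Subset.rfl, Subset.rfl, by simp, ∅,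
      empty_subset _, rfl, by simp⟩⟩
  | succ j ih =>
    obtain ⟨w, r, hwr⟩ := ih
    set t : ℕ := 2 * (w * (4 * b + 1)) + 1 with ht
    refine ⟨1 + (1 + b) * t, t + r, fun N M B W hW hWB => ?_⟩
    have hWne : W.Nonempty := by rw [← card_pos]; omega
    obtain ⟨v, hv⟩ := hWne
    have h1 : (1 + b) * t ≤ (W.erase v).card := by
      rw [card_erase_of_mem hv]; omega
    obtain ⟨R, hR1, hR2⟩ := exists_subset_card_eq h1
    have hRW : R ⊆ W := hR1.trans (erase_subset _ _)
    have hvR : v ∉ R := fun h => notMem_erase v W (hR1 h)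
    have key := force_sorted (m := m) (b := b) (C := {v}) (by simpa using hm) (fun _ => 0) t M B R
      (disjoint_singleton_left.mpr hvR) hR2 ?_
    · refine key.trans fun M1 B1 h => ?_
      obtain ⟨hM1, hB1, hB1c, G, hGR, hGc, hG, -⟩ := h
      -- few edges of Breaker inside `G`
      have hGB : ∀ u ∈ G, (nbr B G u).card = 0 := by
        intro u hu
        rw [card_eq_zero, eq_empty_iff_forall_notMem]
        intro x hx
        obtain ⟨h2, h3, h4⟩ := mem_filter.mp hx
        exact hWB x (hRW (hGR h2)) u (hRW (hGR hu)) h3 h4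
      have hnew : (B1 \ B).card ≤ t * b := by
        rw [card_sdiff_of_subset hB1]; omega
      have hds : degSum B1 G ≤ 2 * (t * b) := by
        have h2 := degSum_le_add (B := B) (B' := B1) (Subset.refl G)
        rw [sum_eq_zero hGB] at h2
        omega
      have hlow : G.card < 2 * (low B1 G (4 * b)).card := by
        apply card_low_of_degSum
        rw [hGc]
        calc 2 * degSum B1 G ≤ 4 * (t * b) := by omega
          _ < t * (4 * b + 1) := by
            have : t * (4 * b + 1) = 4 * (t * b) + t := by ring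
            omega
      have hLG : low B1 G (4 * b) ⊆ G := filter_subset _ _
      have hwc : w * (4 * b + 1) ≤ (low B1 G (4 * b)).card := by omega
      obtain ⟨W', hW'L, hW'c, hW'B⟩ := exists_group (L := low B1 G (4 * b)) hLG
        (fun x hx => (mem_filter.mp hx).2) w hwc
      have hW'G : W' ⊆ G := hW'L.trans hLG
      refine (hwr N M1 B1 W' hW'c.ge hW'B).mono fun M2 B2 h => ?_
      obtain ⟨hM2, hB2, hB2c, C, hCW', hCc, hCM⟩ := h
      have hCG : C ⊆ G := hCW'.trans hW'G
      have hvC : v ∉ C := fun h => hvR (hGR (hCG h))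
      refine ⟨hM1.trans hM2, hB1.trans hB2, ?_, insert v C,
        insert_subset hv (hCG.trans (hGR.trans hRW)), by rw [card_insert_of_notMem hvC, hCc], ?_⟩
      · have : b * (t + r) = t * b + b * r := by ring
        omega
      · intro x hx y hy hxy
        rcases mem_insert.mp hx with hx' | hx'
        · rcases mem_insert.mp hy with hy' | hy'
          · exact absurd (hx'.trans hy'.symm) hxy
          · rw [hx', Sym2.eq_swap]
            exact hM2 (hG y (hCG hy') v (mem_singleton_self v))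
        · rcases mem_insert.mp hy with hy' | hy'
          · rw [hy']
            exact hM2 (hG x (hCG hx') v (mem_singleton_self v))
          · exact hCM x hx' y hy' hxy
    · intro x hx c hc
      rw [mem_singleton.mp hc]
      exact hWB x (hRW hx) v hv fun h => hvR (h ▸ hx)

/-- The invariant of the sharper strategy. -/
def Inv2 (k n E : ℕ) (M B : Finset (Sym2 (Fin N))) : Prop :=
  ∃ K U : Finset (Fin N), Disjoint K U ∧ K.card = k ∧ U.card = n ∧ degSum B U ≤ E ∧
    (∀ u ∈ K, ∀ v ∈ K, u ≠ v → s(u, v) ∈ M) ∧ (∀ v ∈ U, ∀ u ∈ K, s(v, u) ∈ M)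

/-- One phase of the sharper strategy. -/
lemma force_phase2 {m b w r : ℕ} (hwr : ∀ (N : ℕ)
    (M B : Finset (Sym2 (Fin N))) (W : Finset (Fin N)), w ≤ W.card →
      (∀ u ∈ W, ∀ v ∈ W, u ≠ v → s(u, v) ∉ B) →
      Force m b N (fun M' B' => M ⊆ M' ∧ B ⊆ B' ∧ B'.card ≤ B.card + b * r ∧
        ∃ C : Finset (Fin N), C ⊆ W ∧ C.card = m ∧ ∀ u ∈ C, ∀ v ∈ C, u ≠ v → s(u, v) ∈ M')
        M B) {k n n' E E' Δ : ℕ}
    (h1 : 2 * E < n * (Δ + 1)) (h2 : 2 * (w * (Δ + 1)) ≤ n)
    (h3 : (1 + b) * n' + (m * (Δ + 1) + b * r) ≤ n)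
    (h4 : ∀ x : ℕ, (1 + b) * x ≤ E → x + 2 * (b * r + n' * b) ≤ E')
    {M B : Finset (Sym2 (Fin N))} (h : Inv2 k n E M B) :
    Force m b N (Inv2 (k + m) n' E') M B := by
  classical
  obtain ⟨K, U, hKU, hK, hU, hB, hKM, hUM⟩ := h
  have hlow : U.card < 2 * (low B U Δ).card :=
    card_low_of_degSum (lt_of_le_of_lt (Nat.mul_le_mul_left 2 hB) (by rw [hU]; exact h1))
  have hLU : low B U Δ ⊆ U := filter_subset _ _
  have hwc : w * (Δ + 1) ≤ (low B U Δ).card := by rw [hU] at hlow; omega
  obtain ⟨W, hWL, hWc, hWB⟩ := exists_group (L := low B U Δ) hLU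
    (fun x hx => (mem_filter.mp hx).2) w hwc
  have hWU : W ⊆ U := hWL.trans hLU
  refine (hwr N M B W hWc.ge hWB).trans fun M1 B1 hP => ?_
  obtain ⟨hM1, hB1, hB1c, C, hCW, hCc, hCM⟩ := hP
  have hCU : C ⊆ U := hCW.trans hWU
  -- the unspoiled vertices
  set R0 : Finset (Fin N) := (U \ (C ∪ C.biUnion (nbr B U))) \ spoiled C (U \ C) (B1 \ B) with hR0
  have hCUC : Disjoint C (U \ C) := disjoint_sdiff
  have hR0c : U.card ≤ R0.card + (m * (Δ + 1) + b * r) := by
    have h5 : (C ∪ C.biUnion (nbr B U)).card ≤ m * (Δ + 1) := by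
      calc (C ∪ C.biUnion (nbr B U)).card ≤ C.card + (C.biUnion (nbr B U)).card :=
            card_union_le _ _
        _ ≤ C.card + C.card * Δ :=
            Nat.add_le_add_left (card_biUnion_le_card_mul _ _ _
              fun v hv => (mem_filter.mp (hWL (hCW hv))).2) _
        _ = m * (Δ + 1) := by rw [hCc]; ring
    have h6 : (spoiled C (U \ C) (B1 \ B)).card ≤ b * r := by
      refine (card_spoiled_le hCUC _).trans ?_
      rw [card_sdiff_of_subset hB1]
      omega
    have h7 := le_card_sdiff (C ∪ C.biUnion (nbr B U)) U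
    have h8 := le_card_sdiff (spoiled C (U \ C) (B1 \ B)) (U \ (C ∪ C.biUnion (nbr B U)))
    rw [← hR0] at h8
    omega
  have hR0s : (1 + b) * n' ≤ R0.card := by rw [hU] at hR0c; omega
  obtain ⟨R, hRR0, hRc⟩ := exists_subset_card_eq hR0s
  have hR0U : R0 ⊆ U := sdiff_subset.trans sdiff_subset
  have hRU : R ⊆ U := hRR0.trans hR0U
  have hRC : ∀ v ∈ R, v ∉ C := fun v hv h =>
    (mem_sdiff.mp (mem_sdiff.mp (hRR0 hv)).1).2 (mem_union_left _ h)
  have hCR : Disjoint C R := by
    rw [disjoint_left]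
    exact fun v hv hvR => hRC v hvR hv
  have hns : ∀ v ∈ R, ∀ c ∈ C, s(v, c) ∉ B1 := by
    intro v hv c hc hmem
    have hv0 := mem_sdiff.mp (hRR0 hv)
    by_cases hBv : s(v, c) ∈ B
    · apply (mem_sdiff.mp hv0.1).2
      refine mem_union_right _ (mem_biUnion.mpr ⟨c, hc, mem_filter.mpr ⟨hRU hv, ?_, hBv⟩⟩)
      exact fun h => hRC v hv (h ▸ hc)
    · apply hv0.2
      exact mem_filter.mpr ⟨mem_sdiff.mpr ⟨hRU hv, hRC v hv⟩, c, hc,
        mem_sdiff.mpr ⟨hmem, hBv⟩⟩
  refine (force_sorted (m := m) (b := b) (C := C) hCc.le (fun v => (nbr B U v).card) n' M1 B1 R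
    hCR hRc hns).mono fun M2 B2 hP => ?_
  obtain ⟨hM2, hB2, hB2c, G, hGR, hGc, hG, hGd⟩ := hP
  have hKC : Disjoint K C := disjoint_of_subset_right hCU hKU
  have hGU : G ⊆ U := hGR.trans hRU
  refine ⟨K ∪ C, G, ?_, ?_, hGc, ?_, ?_, ?_⟩
  · rw [disjoint_union_left]
    exact ⟨disjoint_of_subset_right hGU hKU, disjoint_of_subset_right hGR hCR⟩
  · rw [card_union_of_disjoint hKC, hK, hCc]
  · have h5 : degSum B2 G ≤ ∑ v ∈ G, (nbr B U v).card + 2 * (B2 \ B).card := degSum_le_add hGU
    have h6 : (B2 \ B).card ≤ b * r + n' * b := by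
      rw [card_sdiff_of_subset (hB1.trans hB2)]
      omega
    have h7 : (1 + b) * ∑ v ∈ G, (nbr B U v).card ≤ E := by
      refine hGd.trans (le_trans (sum_le_sum_of_subset hRU) hB)
    have h8 := h4 _ h7
    omega
  · intro u hu v hv huv
    rcases mem_union.mp hu with hu | hu
    · rcases mem_union.mp hv with hv | hv
      · exact hM2 (hM1 (hKM u hu v hv huv))
      · rw [Sym2.eq_swap]
        exact hM2 (hM1 (hUM v (hCU hv) u hu))
    · rcases mem_union.mp hv with hv | hv
      · exact hM2 (hM1 (hUM u (hCU hu) v hv))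
      · exact hM2 (hCM u hu v hv huv)
  · intro v hv u hu
    rcases mem_union.mp hu with hu | hu
    · exact hM2 (hM1 (hUM v (hGU hv) u hu))
    · exact hG v hv u hu

end CG
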