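import Pool.Agent.helper94.CG.Game

/-!
# MP_ba8873_co : the group strategy of Maker
-/

namespace CG

open Finset

variable {N : ℕ}

/-- The vertices of `U` spoiled for the group `C` by the edges `B`. -/
def spoiled (C U : Finset (Fin N)) (B : Finset (Sym2 (Fin N))) : Finset (Fin N) :=
  U.filter fun v => ∃ c ∈ C, s(v, c) ∈ B

lemma card_spoiled_le {C U : Finset (Fin N)} (hd : Disjoint C U) (Y : Finset (Sym2 (Fin N))) :
    (spoiled C U Y).card ≤ Y.card := by
  classical
  have h : ∀ v : Fin N, v ∈ spoiled C U Y → ∃ c ∈ C, s(v, c) ∈ Y := fun v hv =>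
    (mem_filter.mp hv).2
  choose! f hf1 hf2 using h
  apply card_le_card_of_injOn (fun v => s(v, f v))
  · intro v hv
    exact hf2 v hv
  · intro v hv w hw hvw
    simp only [Sym2.eq_iff] at hvw
    rcases hvw with h | h
    · exact h.1
    · exfalso
      have h1 : v ∈ U := (mem_filter.mp (mem_coe.mp hv)).1
      have h2 : v ∈ C := h.1 ▸ hf1 w (mem_coe.mp hw)
      exact disjoint_left.mp hd h2 h1

lemma card_spoiled_union_le {C U : Finset (Fin N)} (hd : Disjoint C U)
    (B Y : Finset (Sym2 (Fin N))) :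
    (spoiled C U (B ∪ Y)).card ≤ (spoiled C U B).card + Y.card := by
  classical
  have h : spoiled C U (B ∪ Y) ⊆ spoiled C U B ∪ spoiled C U Y := by
    intro v hv
    obtain ⟨h1, c, hc, hvc⟩ := mem_filter.mp hv
    rcases mem_union.mp hvc with h2 | h2
    · exact mem_union_left _ (mem_filter.mpr ⟨h1, c, hc, h2⟩)
    · exact mem_union_right _ (mem_filter.mpr ⟨h1, c, hc, h2⟩)
  calc (spoiled C U (B ∪ Y)).card ≤ (spoiled C U B ∪ spoiled C U Y).card := card_le_card h
    _ ≤ (spoiled C U B).card + (spoiled C U Y).card := card_union_le _ _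
    _ ≤ _ := Nat.add_le_add_left (card_spoiled_le hd Y) _

/-- Maker joins `t` further vertices of `U` to the whole group `C`, one vertex per move. -/
lemma force_process {m b : ℕ} {C U : Finset (Fin N)} (hd : Disjoint C U) (hC : C.card ≤ m) :
    ∀ (t : ℕ) (M B : Finset (Sym2 (Fin N))) (G : Finset (Fin N)) (a : ℕ), G ⊆ U →
      (∀ v ∈ G, ∀ c ∈ C, s(v, c) ∈ M) → (spoiled C U B).card ≤ a →
      G.card + a + t * (1 + b) ≤ U.card →
      Force m b N (fun M' B' => M ⊆ M' ∧ B'.card ≤ B.card + t * b ∧
        ∃ G' : Finset (Fin N), G' ⊆ U ∧ G'.card = G.card + t ∧ ∀ v ∈ G', ∀ c ∈ C, s(v, c) ∈ M')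
        M B := by
  classical
  intro t
  induction t with
  | zero =>
    intro M B G a hG hM _ _
    exact Force.here M B ⟨Subset.rfl, by simp, G, hG, rfl, hM⟩
  | succ t ih =>
    intro M B G a hG hM ha hcard
    -- an unspoiled vertex
    have h1 : (G ∪ spoiled C U B).card < U.card := by
      have := card_union_le G (spoiled C U B)
      have h2 : (t + 1) * (1 + b) = t * (1 + b) + 1 + b := by ring
      rw [h2] at hcard
      omega
    obtain ⟨v, hvU, hv⟩ : ∃ v ∈ U, v ∉ G ∪ spoiled C U B := by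
      by_contra hcon
      push Not at hcon
      exact absurd (card_le_card (fun v hv => hcon v hv : U ⊆ G ∪ spoiled C U B)) (by omega)
    rw [mem_union, not_or] at hv
    have hvC : v ∉ C := fun h => disjoint_left.mp hd h hvU
    refine Force.round (C.image fun c => s(v, c)) (card_image_le.trans hC) ?_ ?_ ?_
    · intro e he
      obtain ⟨c, hc, rfl⟩ := mem_image.mp he
      rw [Sym2.mk_isDiag_iff]
      exact fun h => hvC (h ▸ hc)
    · intro e he heB
      obtain ⟨c, hc, rfl⟩ := mem_image.mp he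
      exact hv.2 (mem_filter.mpr ⟨hvU, c, hc, heB⟩)
    · intro M' Y hMM' hZ hY
      have key := ih M' (B ∪ Y) (insert v G) (a + b) (insert_subset hvU hG) ?_ ?_ ?_
      · refine key.mono fun M'' B'' h => ?_
        obtain ⟨h3, h4, G', h5, h6, h7⟩ := h
        refine ⟨hMM'.trans h3, ?_, G', h5, ?_, h7⟩
        · have := card_union_le B Y
          have h8 : (t + 1) * b = t * b + b := by ring
          rw [h8]
          omega
        · rw [h6, card_insert_of_notMem hv.1]
          ring
      · intro w hw c hc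
        rcases mem_insert.mp hw with rfl | hw
        · exact hZ (mem_image.mpr ⟨c, hc, rfl⟩)
        · exact hMM' (hM w hw c hc)
      · exact (card_spoiled_union_le hd B Y).trans (Nat.add_le_add ha hY)
      · rw [card_insert_of_notMem hv.1]
        have h8 : (t + 1) * (1 + b) = t * (1 + b) + 1 + b := by ring
        rw [h8] at hcard
        omega

/-! ### Choice of the group -/

/-- The neighbours of `v` in `U` along the edges `B`. -/
def nbr (B : Finset (Sym2 (Fin N))) (U : Finset (Fin N)) (v : Fin N) : Finset (Fin N) :=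
  U.filter fun u => u ≠ v ∧ s(u, v) ∈ B

lemma sum_nbr_le (B : Finset (Sym2 (Fin N))) (U : Finset (Fin N)) :
    ∑ v ∈ U, (nbr B U v).card ≤ 2 * B.card := by
  classical
  rw [← card_sigma]
  apply card_le_mul_card_image_of_maps_to (f := fun p : (_ : Fin N) × Fin N => s(p.2, p.1))
  · intro p hp
    exact (mem_filter.mp (mem_sigma.mp hp).2).2.2
  · intro e _
    induction e using Sym2.ind with
    | _ x y =>
      refine (card_le_card (t := {⟨x, y⟩, ⟨y, x⟩}) ?_).trans card_le_two
      intro p hp
      have h := (mem_filter.mp hp).2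
      simp only [Sym2.eq_iff] at h
      rw [mem_insert, mem_singleton]
      rcases h with h | h
      · right
        exact Sigma.ext h.2 (heq_of_eq h.1)
      · left
        exact Sigma.ext h.2 (heq_of_eq h.1)

/-- The vertices of low degree. -/
def low (B : Finset (Sym2 (Fin N))) (U : Finset (Fin N)) (Δ : ℕ) : Finset (Fin N) :=
  U.filter fun v => (nbr B U v).card ≤ Δ

lemma card_low {B : Finset (Sym2 (Fin N))} {U : Finset (Fin N)} {Δ : ℕ}
    (h : 4 * B.card < U.card * (Δ + 1)) : U.card < 2 * (low B U Δ).card := by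
  classical
  have h1 : (U.filter fun v => ¬ (nbr B U v).card ≤ Δ).card * (Δ + 1) ≤ 2 * B.card := by
    refine le_trans ?_ (sum_nbr_le B U)
    rw [← smul_eq_mul]
    calc (U.filter fun v => ¬ (nbr B U v).card ≤ Δ).card • (Δ + 1)
        ≤ ∑ v ∈ U.filter fun v => ¬ (nbr B U v).card ≤ Δ, (nbr B U v).card := by
          apply card_nsmul_le_sum
          intro v hv
          have := (mem_filter.mp hv).2
          omega
      _ ≤ _ := sum_le_sum_of_subset (filter_subset _ _)
  have h2 := card_filter_add_card_filter_not (s := U) (fun v => (nbr B U v).card ≤ Δ)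
  have h3 : (low B U Δ).card = (U.filter fun v => (nbr B U v).card ≤ Δ).card := rfl
  by_contra hcon
  push Not at hcon
  have h4 : U.card ≤ 2 * (U.filter fun v => ¬ (nbr B U v).card ≤ Δ).card := by omega
  nlinarith

/-- Greedy choice of an independent set of low degree vertices. -/
lemma exists_group {B : Finset (Sym2 (Fin N))} {U L : Finset (Fin N)} {Δ : ℕ} (hL : L ⊆ U)
    (hdeg : ∀ v ∈ L, (nbr B U v).card ≤ Δ) :
    ∀ j : ℕ, j * (Δ + 1) ≤ L.card → ∃ C ⊆ L, C.card = j ∧
      ∀ u ∈ C, ∀ v ∈ C, u ≠ v → s(u, v) ∉ B := by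
  classical
  intro j
  induction j with
  | zero => intro _; exact ⟨∅, empty_subset _, rfl, by simp⟩
  | succ j ih =>
    intro hj
    obtain ⟨C, hC, hCc, hCB⟩ := ih (by nlinarith)
    have h1 : (C ∪ C.biUnion (nbr B U)).card < L.card := by
      calc (C ∪ C.biUnion (nbr B U)).card ≤ C.card + (C.biUnion (nbr B U)).card :=
            card_union_le _ _
        _ ≤ C.card + C.card * Δ :=
            Nat.add_le_add_left (card_biUnion_le_card_mul _ _ _ fun v hv => hdeg v (hC hv)) _
        _ = j * (Δ + 1) := by rw [hCc]; ring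
        _ < (j + 1) * (Δ + 1) := by nlinarith
        _ ≤ L.card := hj
    obtain ⟨v, hvL, hv⟩ : ∃ v ∈ L, v ∉ C ∪ C.biUnion (nbr B U) := by
      by_contra hcon
      push Not at hcon
      exact absurd (card_le_card (fun v hv => hcon v hv : L ⊆ C ∪ C.biUnion (nbr B U)))
        (by omega)
    rw [mem_union, not_or] at hv
    have hvn : ∀ u ∈ C, s(v, u) ∉ B := by
      intro u hu hB
      apply hv.2
      rw [mem_biUnion]
      exact ⟨u, hu, mem_filter.mpr ⟨hL hvL, fun h => hv.1 (h ▸ hu), hB⟩⟩
    refine ⟨insert v C, insert_subset hvL hC, by rw [card_insert_of_notMem hv.1, hCc], ?_⟩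
    intro u hu w hw huw
    rcases mem_insert.mp hu with hu' | hu'
    · rcases mem_insert.mp hw with hw' | hw'
      · exact absurd (hu'.trans hw'.symm) huw
      · rw [hu']; exact hvn w hw'
    · rcases mem_insert.mp hw with hw' | hw'
      · rw [Sym2.eq_swap, hw']; exact hvn u hu'
      · exact hCB u hu' w hw' huw

/-- The invariant: Maker owns a clique on `k` vertices completely joined to `n` further vertices. -/
def Inv (k n β : ℕ) (M B : Finset (Sym2 (Fin N))) : Prop :=
  ∃ K U : Finset (Fin N), Disjoint K U ∧ K.card = k ∧ U.card = n ∧ B.card ≤ β ∧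
    (∀ u ∈ K, ∀ v ∈ K, u ≠ v → s(u, v) ∈ M) ∧ (∀ v ∈ U, ∀ u ∈ K, s(v, u) ∈ M)

/-- The edges inside a set of vertices. -/
lemma exists_edges_within (C : Finset (Fin N)) {m : ℕ} (h : C.card * (C.card - 1) ≤ 2 * m) :
    ∃ Z : Finset (Sym2 (Fin N)), Z.card ≤ m ∧ (∀ e ∈ Z, ∃ u ∈ C, ∃ v ∈ C, u ≠ v ∧ e = s(u, v)) ∧
      ∀ u ∈ C, ∀ v ∈ C, u ≠ v → s(u, v) ∈ Z := by
  classical
  refine ⟨C.offDiag.image Sym2.mk.uncurry, ?_, ?_, ?_⟩
  · have h1 := Sym2.card_image_offDiag C
    have h2 : (C.offDiag.image Sym2.mk.uncurry).card = C.card.choose 2 := h1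
    rw [h2, Nat.choose_two_right]
    omega
  · intro e he
    obtain ⟨p, hp, rfl⟩ := mem_image.mp he
    rw [mem_offDiag] at hp
    exact ⟨p.1, hp.1, p.2, hp.2.1, hp.2.2, rfl⟩
  · intro u hu v hv huv
    exact mem_image.mpr ⟨(u, v), mem_offDiag.mpr ⟨hu, hv, huv⟩, rfl⟩

/-- One phase of the strategy. -/
lemma force_phase {m b j Δ k n n' β : ℕ} (hj : j ≤ m) (hj2 : j * (j - 1) ≤ 2 * m)
    (hn : n = 4 * (b + 1) * n') (hn' : 1 ≤ n') (hΔ : 4 * (j * (Δ + 1)) ≤ n)
    (hβ : 4 * β < n * (Δ + 1)) {M B : Finset (Sym2 (Fin N))} (h : Inv k n β M B) :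
    Force m b N (Inv (k + j) n' (β + b * (n' + 1))) M B := by
  classical
  obtain ⟨K, U, hKU, hK, hU, hB, hKM, hUM⟩ := h
  have hlow : U.card < 2 * (low B U Δ).card := card_low (by rw [hU]; omega)
  have hLU : low B U Δ ⊆ U := filter_subset _ _
  have hj4 : j * (Δ + 1) ≤ (low B U Δ).card := by rw [hU] at hlow; omega
  obtain ⟨C, hCL, hCc, hCB⟩ := exists_group (L := low B U Δ) hLU
    (fun v hv => (mem_filter.mp hv).2) j hj4
  have hCU : C ⊆ U := hCL.trans hLU
  -- the vertices not adjacent to the group in `B`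
  set W : Finset (Fin N) := U \ (C ∪ C.biUnion (nbr B U)) with hW
  have hWc : U.card ≤ W.card + j * (Δ + 1) := by
    have h1 : U.card ≤ W.card + (C ∪ C.biUnion (nbr B U)).card := by
      rw [hW]
      have := le_card_sdiff (C ∪ C.biUnion (nbr B U)) U
      omega
    have h2 : (C ∪ C.biUnion (nbr B U)).card ≤ j * (Δ + 1) := by
      calc (C ∪ C.biUnion (nbr B U)).card ≤ C.card + (C.biUnion (nbr B U)).card :=
            card_union_le _ _
        _ ≤ C.card + C.card * Δ :=
            Nat.add_le_add_left (card_biUnion_le_card_mul _ _ _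
              fun v hv => (mem_filter.mp (hCL hv)).2) _
        _ = j * (Δ + 1) := by rw [hCc]; ring
    omega
  have hCW : Disjoint C W := by
    rw [disjoint_left]
    intro v hv hvW
    exact (mem_sdiff.mp hvW).2 (mem_union_left _ hv)
  have hWU : W ⊆ U := sdiff_subset
  have hsp : spoiled C W B = ∅ := by
    rw [eq_empty_iff_forall_notMem]
    intro v hv
    obtain ⟨hvW, c, hc, hB'⟩ := mem_filter.mp hv
    apply (mem_sdiff.mp hvW).2
    refine mem_union_right _ (mem_biUnion.mpr ⟨c, hc, mem_filter.mpr ⟨hWU hvW, ?_, hB'⟩⟩)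
    exact fun h => disjoint_left.mp hCW hc (h ▸ hvW)
  obtain ⟨Z, hZc, hZ1, hZ2⟩ := exists_edges_within C (m := m) (by rw [hCc]; exact hj2)
  refine Force.round Z hZc ?_ ?_ ?_
  · intro e he
    obtain ⟨u, hu, v, hv, huv, rfl⟩ := hZ1 e he
    rw [Sym2.mk_isDiag_iff]
    exact huv
  · intro e he
    obtain ⟨u, hu, v, hv, huv, rfl⟩ := hZ1 e he
    exact hCB u hu v hv huv
  · intro M' Y hMM' hZM' hY
    have key := force_process (m := m) (b := b) hCW (by rw [hCc]; exact hj) n' M' (B ∪ Y) ∅ b
      (empty_subset _) (by simp) ?_ ?_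
    · refine key.mono fun M'' B'' h => ?_
      obtain ⟨h3, h4, G, h5, h6, h7⟩ := h
      have hKC : Disjoint K C := disjoint_of_subset_right hCU hKU
      refine ⟨K ∪ C, G, ?_, ?_, ?_, ?_, ?_, ?_⟩
      · rw [disjoint_union_left]
        exact ⟨disjoint_of_subset_right (h5.trans hWU) hKU, disjoint_of_subset_right h5 hCW⟩
      · rw [card_union_of_disjoint hKC, hK, hCc]
      · rw [h6]; simp
      · have := card_union_le B Y
        have h8 : b * (n' + 1) = n' * b + b := by ring
        rw [h8]
        omega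
      · intro u hu v hv huv
        rcases mem_union.mp hu with hu | hu
        · rcases mem_union.mp hv with hv | hv
          · exact h3 (hMM' (hKM u hu v hv huv))
          · rw [Sym2.eq_swap]
            exact h3 (hMM' (hUM v (hCU hv) u hu))
        · rcases mem_union.mp hv with hv | hv
          · exact h3 (hMM' (hUM u (hCU hu) v hv))
          · exact h3 (hZM' (hZ2 u hu v hv huv))
      · intro v hv u hu
        rcases mem_union.mp hu with hu | hu
        · exact h3 (hMM' (hUM v (hWU (h5 hv)) u hu))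
        · exact h7 v hv u hu
    · refine (card_spoiled_union_le hCW B Y).trans ?_
      rw [hsp]
      simpa using hY
    · have h8 : 4 * (b + 1) * n' = 4 * (n' * (1 + b)) := by ring
      have h9 : 1 * (1 + b) ≤ n' * (1 + b) := Nat.mul_le_mul_right _ hn'
      simp only [card_empty, zero_add]
      omega

/-- The group strategy: if `D = 4 (b + 1)`, `D ^ T ≤ N` and `2 I ≤ T`, Maker builds a clique on
`j I` vertices, provided `j ≤ m`, `j ≤ b + 1` and `j (j - 1) ≤ 2 m`. -/
theorem makerForces_group {m b j N T I : ℕ} (hm : 1 ≤ m) (hj : j ≤ m) (hjb : j ≤ b + 1)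
    (hj2 : j * (j - 1) ≤ 2 * m) (hT : (4 * (b + 1)) ^ T ≤ N) (hI : 2 * I ≤ T) :
    MakerForces m b N (j * I) ∅ ∅ := by
  classical
  set D : ℕ := 4 * (b + 1) with hD
  have hD4 : 4 ≤ D := by omega
  have hmain : ∀ i : ℕ, i ≤ I → Force m b N (fun M B => ∃ β, β + b * D ^ (T - i) ≤ b * D ^ T ∧
      Inv (j * i) (D ^ (T - i)) β M B) ∅ ∅ := by
    intro i
    induction i with
    | zero =>
      intro _
      obtain ⟨U, -, hU⟩ := exists_subset_card_eq (s := (univ : Finset (Fin N))) (n := D ^ T)
        (by simpa using hT)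
      refine Force.here _ _ ⟨0, by simp, ∅, U, disjoint_empty_left _, by simp, by simpa using hU,
        by simp, by simp, by simp⟩
    | succ i ih =>
      intro hi
      refine (ih (by omega)).trans fun M B h => ?_
      obtain ⟨β, hβ, hInv⟩ := h
      have hTi : T - i = (T - (i + 1)) + 1 := by omega
      have hpow : D ^ (T - i) = D * D ^ (T - (i + 1)) := by rw [hTi, pow_succ]; ring
      have hpos : 1 ≤ D ^ (T - (i + 1)) := Nat.one_le_pow _ _ (by omega)
      have hsplit : D ^ T = D ^ (T - i) * D ^ i := by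
        rw [← pow_add]; congr 1; omega
      have hDi : 1 ≤ D ^ i := Nat.one_le_pow _ _ (by omega)
      -- the size condition
      have hbig : D ^ i * (D * D) ≤ D ^ (T - i) := by
        calc D ^ i * (D * D) = D ^ (i + 2) := by rw [pow_add]; ring
          _ ≤ D ^ (T - i) := Nat.pow_le_pow_right (by omega) (by omega)
      have hcond : 4 * (j * (4 * b * D ^ i + 1)) ≤ D ^ (T - i) := by
        refine le_trans ?_ hbig
        calc 4 * (j * (4 * b * D ^ i + 1)) ≤ 4 * ((b + 1) * (4 * b * D ^ i + D ^ i * 4)) := by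
              apply Nat.mul_le_mul_left
              apply Nat.mul_le_mul hjb
              omega
          _ = D ^ i * (D * D) := by rw [hD]; ring
      have key := force_phase (m := m) (b := b) (j := j) (Δ := 4 * b * D ^ i) (k := j * i)
        (n := D ^ (T - i)) (n' := D ^ (T - (i + 1))) (β := β) hj hj2 hpow hpos hcond ?_ hInv
      · refine key.mono fun M' B' h => ⟨β + b * (D ^ (T - (i + 1)) + 1), ?_, ?_⟩
        · have h1 : D ^ (T - (i + 1)) + 1 + D ^ (T - (i + 1)) ≤ D ^ (T - i) := by
            rw [hpow]; nlinarith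
          have h2 := Nat.mul_le_mul_left b h1
          calc β + b * (D ^ (T - (i + 1)) + 1) + b * D ^ (T - (i + 1))
              = β + b * (D ^ (T - (i + 1)) + 1 + D ^ (T - (i + 1))) := by ring
            _ ≤ β + b * D ^ (T - i) := by omega
            _ ≤ _ := hβ
        · have h3 : j * (i + 1) = j * i + j := by ring
          rw [h3]
          exact h
      · have h1 : β ≤ b * D ^ T := by omega
        have h2 : D ^ (T - i) * (4 * b * D ^ i + 1) = 4 * (b * D ^ T) + D ^ (T - i) := by
          rw [hsplit]; ring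
        rw [h2]
        have h3 : 1 ≤ D ^ (T - i) := Nat.one_le_pow _ _ (by omega)
        omega
  refine Force.makerForces hm ((hmain I le_rfl).mono fun M B h => ?_)
  obtain ⟨β, -, K, U, -, hK, -, -, hKM, -⟩ := h
  exact ⟨K, hK, hKM⟩

end CG
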